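import Pool.Agent.helper87.AU.SpecQ2

/-!
# Project au, module QE4
-/

namespace Pool.Agent.helper53.AU

open scoped Classical IntermediateField
open IntermediateField (fixedField)

noncomputable section

theorem QE4_ord_prod {k F : Type} [Field k] [Field F] [Algebra k F] (P : Place k F) {ι : Type}
    (s : Finset ι) (g : ι → F) (hg : ∀ i ∈ s, g i ≠ 0) :
    P.ord (∏ i ∈ s, g i) = ∑ i ∈ s, P.ord (g i) := by
  induction s using Finset.induction_on with
  | empty => simpa using P.ord_one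
  | insert a s ha ih =>
    rw [Finset.prod_insert ha, Finset.sum_insert ha, P.ord_mul, ih]
    · exact fun i hi => hg i (Finset.mem_insert_of_mem hi)
    · exact hg a (Finset.mem_insert_self a s)
    · rw [Finset.prod_ne_zero_iff]
      exact fun i hi => hg i (Finset.mem_insert_of_mem hi)

theorem QE4 (hV2 : QV2_stmt) : QE4_stmt := by
  intro k F _ _ _ _ hFF H hH P P' Q e hB
  have hfix : ∀ s ∈ H, ∀ f : fixedField H, s (f : F) = f := by
    intro s hs f
    exact (IntermediateField.mem_fixedField_iff H (f : F)).mp f.2 s hs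
  have hfix' : ∀ s ∈ H, ∀ f : fixedField H, s.symm (f : F) = f := by
    intro s hs f
    rw [AlgEquiv.symm_apply_eq, hfix s hs f]
  have hsm : ∀ s ∈ H, Below (fixedField H) (s • P) Q e := by
    intro s hs
    refine ⟨hB.1, fun f => ?_⟩
    rw [smul_ord, hfix' s hs f]
    exact hB.2 f
  refine ⟨⟨?_, ?_⟩, hsm⟩
  · rintro ⟨e', hB'⟩
    by_contra hcon
    push Not at hcon
    have hne : ∀ s ∈ H, ∀ s' ∈ H, s • P ≠ s' • P' := by
      intro s hs s' hs' h
      apply hcon (s'⁻¹ * s) (H.mul_mem (H.inv_mem hs') hs)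
      rw [mul_smul, h, inv_smul_smul]
    haveI : Fintype H := Fintype.ofFinite H
    let S : Finset (Place k F) :=
      (Finset.univ.image fun s : H => (s : F ≃ₐ[k] F) • P) ∪
        (Finset.univ.image fun s : H => (s : F ≃ₐ[k] F) • P')
    obtain ⟨f, hf⟩ := hV2 k F S 1
      (fun R => if ∃ s : H, (s : F ≃ₐ[k] F) • P = R then 1 else 0)
    have hP1 : ∀ s : H, ((s : F ≃ₐ[k] F) • P).Ge 1 (f - 1) := by
      intro s
      have h1 := hf ((s : F ≃ₐ[k] F) • P) (Finset.mem_union_left _
        (Finset.mem_image_of_mem _ (Finset.mem_univ s)))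
      rwa [if_pos ⟨s, rfl⟩] at h1
    have hP0 : ∀ s : H, ((s : F ≃ₐ[k] F) • P').Ge 1 f := by
      intro s
      have h1 := hf ((s : F ≃ₐ[k] F) • P') (Finset.mem_union_right _
        (Finset.mem_image_of_mem _ (Finset.mem_univ s)))
      rw [if_neg, sub_zero] at h1
      · exact h1
      · rintro ⟨s', hs'⟩
        exact hne s' s'.2 s s.2 hs'
    have hord1 : ∀ s : H, f ≠ 0 ∧ ((s : F ≃ₐ[k] F) • P).ord f = 0 := by
      intro s
      have h1 : ((s : F ≃ₐ[k] F) • P).Ge (((s : F ≃ₐ[k] F) • P).ord 1 + 1) (f - 1) := by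
        rw [Place.ord_one]; exact hP1 s
      have h2 := Place.ord_add_eq one_ne_zero h1
      rw [add_sub_cancel, Place.ord_one] at h2
      exact h2
    have hf0 : f ≠ 0 := (hord1 1).1
    have hmap : ∀ s : H, (s : F ≃ₐ[k] F) f ≠ 0 := by
      intro s
      simpa using hf0
    have hoP : ∀ s : H, P.ord ((s : F ≃ₐ[k] F) f) = 0 := by
      intro s
      have h1 := (hord1 s⁻¹).2
      rw [smul_ord] at h1
      exact h1
    have hoP' : ∀ s : H, 1 ≤ P'.ord ((s : F ≃ₐ[k] F) f) := by
      intro s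
      have h1 := (hP0 s⁻¹).le hf0
      rw [smul_ord] at h1
      exact h1
    have hmem : (∏ s : H, (s : F ≃ₐ[k] F) f) ∈ fixedField H := by
      rw [IntermediateField.mem_fixedField_iff]
      intro t ht
      rw [map_prod]
      exact Fintype.prod_equiv (Equiv.mulLeft (⟨t, ht⟩ : H)) _ _ (fun s => rfl)
    have h1 := hB.2 ⟨_, hmem⟩
    have h2 := hB'.2 ⟨_, hmem⟩
    change P.ord (∏ s : H, (s : F ≃ₐ[k] F) f) = _ at h1
    change P'.ord (∏ s : H, (s : F ≃ₐ[k] F) f) = _ at h2
    rw [QE4_ord_prod P _ _ (fun i _ => hmap i), Finset.sum_congr rfl (fun i _ => hoP i),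
      Finset.sum_const_zero] at h1
    rw [QE4_ord_prod P' _ _ (fun i _ => hmap i)] at h2
    have he : (e : ℤ) ≠ 0 := by
      have := hB.1
      omega
    have hQ : Q.ord (⟨_, hmem⟩ : fixedField H) = 0 := by
      rcases mul_eq_zero.mp h1.symm with h | h
      · exact absurd h he
      · exact h
    rw [hQ, mul_zero] at h2
    have h3 : (1 : ℤ) ≤ ∑ s : H, P'.ord ((s : F ≃ₐ[k] F) f) := by
      calc (1 : ℤ) ≤ P'.ord (((1 : H) : F ≃ₐ[k] F) f) := hoP' 1
        _ ≤ ∑ s : H, P'.ord ((s : F ≃ₐ[k] F) f) :=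
          Finset.single_le_sum (f := fun s : H => P'.ord ((s : F ≃ₐ[k] F) f))
            (fun s _ => by have := hoP' s; omega) (Finset.mem_univ (1 : H))
    omega
  · rintro ⟨s, hs, rfl⟩
    exact ⟨e, hsm s hs⟩

end

end Pool.Agent.helper53.AU
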