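import Pool.Agent.helper87.AU.SpecQ1

/-!
# Project au, module QN2
-/

namespace Pool.Agent.helper53.AU

open scoped Classical IntermediateField
open Polynomial (aeval)

noncomputable section

section
variable {k F : Type} [Field k] [Field F] [Algebra k F]

theorem QN2_aeval_ge (P : Place k F) {x : F} (hx : P.Ge 0 x) (p : Polynomial k) :
    P.Ge 0 (aeval x p) := by
  rw [Polynomial.aeval_eq_sum_range]
  apply Place.Ge.sum
  intro i _
  apply Place.Ge.smul
  have := hx.pow i
  simpa using this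

/-- the combination of the basis elements -/
def QN2_E (x : F) {n : ℕ} (u : Fin n → F) : (Fin n → Polynomial k) →ₗ[k] F where
  toFun φ := ∑ i, aeval x (φ i) * u i
  map_add' φ ψ := by
    simp [add_mul, Finset.sum_add_distrib]
  map_smul' c φ := by
    simp [Finset.smul_sum]

theorem QN2_E_smul (x : F) {n : ℕ} (u : Fin n → F) (c : Polynomial k) (φ : Fin n → Polynomial k) :
    QN2_E x u (c • φ) = aeval x c * QN2_E x u φ := by
  simp [QN2_E, Finset.mul_sum, mul_assoc]

/-- the submodule of the combinations with orders at least those of `h` on `S` -/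
def QN2_U (x : F) {n : ℕ} (u : Fin n → F) (h : F) (S : Finset (Place k F))
    (hx : ∀ P ∈ S, P.Ge 0 x) : Submodule (Polynomial k) (Fin n → Polynomial k) where
  carrier := {φ | ∀ P ∈ S, P.Ge (P.ord h) (QN2_E x u φ)}
  zero_mem' := by
    intro P _
    rw [map_zero]
    exact P.ge_zero _
  add_mem' := by
    intro φ ψ hφ hψ P hP
    rw [map_add]
    exact (hφ P hP).add (hψ P hP)
  smul_mem' := by
    intro c φ hφ P hP
    rw [QN2_E_smul]
    simpa using (QN2_aeval_ge P (hx P hP) c).mul (hφ P hP)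

theorem QN2_mulVec (x : F) {n : ℕ} (u : Fin n → F) (h : F)
    (A : Matrix (Fin n) (Fin n) (Polynomial k)) (hA : MulMat x u h A) (v : Fin n → Polynomial k) :
    QN2_E x u (A.mulVec v) = h * QN2_E x u v := by
  simp only [QN2_E, LinearMap.coe_mk, AddHom.coe_mk, Matrix.mulVec, dotProduct, map_sum, map_mul,
    Finset.sum_mul, Finset.mul_sum]
  rw [Finset.sum_comm]
  refine Finset.sum_congr rfl fun j _ => ?_
  have h1 := hA j
  calc ∑ i, aeval x (A i j) * aeval x (v j) * u i
      = aeval x (v j) * ∑ i, aeval x (A i j) * u i := by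
        rw [Finset.mul_sum]; refine Finset.sum_congr rfl fun i _ => by ring
    _ = h * (aeval x (v j) * u j) := by rw [← h1]; ring

theorem QN2_ord_sub {P₀ : Place k F} {x : F} {n : ℕ} (hn : 0 < n) (hx : P₀.ord x = -(n : ℤ))
    (a : k) : x - algebraMap k F a ≠ 0 ∧ P₀.ord (x - algebraMap k F a) = -(n : ℤ) := by
  have hx0 : x ≠ 0 := by
    intro h
    rw [h, P₀.ord_zero] at hx
    omega
  have h1 : P₀.Ge (P₀.ord x + 1) (-algebraMap k F a) := by
    apply Place.Ge.neg
    exact (P₀.ge_const a).mono (by rw [hx]; omega)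
  have h2 := Place.ord_add_eq hx0 h1
  rw [← sub_eq_add_neg, hx] at h2
  exact h2

end

/-- the inequality at one point -/
theorem QN2_ge (hR4 : QR4_stmt) (hM1 : QM1_stmt) (k F : Type) [Field k] [IsAlgClosed k] [Field F]
    [Algebra k F] (hFF : IsFF k F) (P₀ : Place k F) (x : F) (n : ℕ) (u : Fin n → F)
    (μ : Fin n → ℕ) (hO : OneP P₀ x n u μ) (h : F) (hreg : h ∈ Reg P₀)
    (hh0 : h ≠ 0)
    (A : Matrix (Fin n) (Fin n) (Polynomial k)) (hA : MulMat x u h A) (hdet : A.det ≠ 0) (a : k)
    (S : Finset (Place k F)) (hS : ∀ P ∈ S, 0 < P.ord (x - algebraMap k F a)) :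
    ∑ P ∈ S, P.ord h ≤ (Polynomial.rootMultiplicity a A.det : ℤ) := by
  have hP₀ : P₀ ∉ S := by
    intro hP
    have h1 := hS P₀ hP
    rw [(QN2_ord_sub hO.pos hO.xord a).2] at h1
    have := hO.pos
    omega
  have hneP : ∀ P ∈ S, P ≠ P₀ := fun P hP h => hP₀ (h ▸ hP)
  have hx : ∀ P ∈ S, P.Ge 0 x := fun P hP => hO.xreg P (hneP P hP)
  have hm : ∀ P ∈ S, 0 ≤ P.ord h := fun P hP => (hreg P (hneP P hP)).le hh0
  set N : ℕ := ∑ P ∈ S, (P.ord h).toNat with hN
  have hmN : ∀ P ∈ S, P.ord h ≤ (N : ℤ) := by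
    intro P hP
    have h1 : (P.ord h).toNat ≤ N := Finset.single_le_sum (f := fun P => (P.ord h).toNat)
      (fun _ _ => Nat.zero_le _) hP
    have h2 := hm P hP
    omega
  set U := QN2_U (k := k) x u h S hx with hU
  have hU1 : ∀ v, A.mulVec v ∈ U := by
    intro v P hP
    rw [QN2_mulVec x u h A hA]
    have h1 : P.Ge 0 (QN2_E x u v) := by
      change P.Ge 0 (∑ i, aeval x (v i) * u i)
      apply Place.Ge.sum
      intro i _
      have := (QN2_aeval_ge P (hx P hP) (v i)).mul (hO.reg i P (hneP P hP))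
      simpa using this
    simpa using (P.ge_ord h).mul h1
  have hU2 : ∀ v : Fin n → Polynomial k, (Polynomial.X - Polynomial.C a) ^ N • v ∈ U := by
    intro v P hP
    rw [QN2_E_smul]
    have h1 : P.Ge 0 (QN2_E x u v) := by
      change P.Ge 0 (∑ i, aeval x (v i) * u i)
      apply Place.Ge.sum
      intro i _
      have := (QN2_aeval_ge P (hx P hP) (v i)).mul (hO.reg i P (hneP P hP))
      simpa using this
    have h2 : P.Ge (N * 1) (aeval x ((Polynomial.X - Polynomial.C a) ^ N)) := by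
      rw [map_pow, map_sub, Polynomial.aeval_X, Polynomial.aeval_C]
      apply Place.Ge.pow
      right
      have := hS P hP
      omega
    have h3 := (h2.mul h1).mono (m := P.ord h) (by have := hmN P hP; omega)
    exact h3
  obtain ⟨hfin, hle⟩ := hM1 k n N A a U hdet hU1 hU2
  -- the approximating functions
  have happ : ∀ (P : Place k F), P ∈ S → ∀ j : ℕ, (j : ℤ) < P.ord h → ∃ φ : Fin n → Polynomial k,
      QN2_E x u φ ≠ 0 ∧ P.ord (QN2_E x u φ) = j ∧
      ∀ P' ∈ S, P' ≠ P → P'.Ge (P'.ord h) (QN2_E x u φ) := by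
    intro P hP j hj
    obtain ⟨f, hf, hfa⟩ := hR4 k F hFF P₀ S N (fun P' => if P' = P then P.unif ^ j else 0) hP₀
      (by
        intro P' hP'
        by_cases h1 : P' = P
        · subst h1
          simp only [if_true]
          right
          rw [P'.ord_pow P'.unif_spec.1, P'.unif_spec.2]
          omega
        · simp only [h1, if_false]
          exact P'.ge_zero _)
    obtain ⟨φ, hφ⟩ := hO.span f hf
    have hE : QN2_E x u φ = f := hφ.symm
    refine ⟨φ, ?_⟩
    rw [hE]
    have h1 := hfa P hP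
    simp only [if_true] at h1
    have hu0 : P.unif ^ j ≠ 0 := pow_ne_zero _ P.unif_spec.1
    have huo : P.ord (P.unif ^ j) = j := by
      rw [P.ord_pow P.unif_spec.1, P.unif_spec.2]; ring
    have h2 : P.Ge (P.ord (P.unif ^ j) + 1) (f - P.unif ^ j) := by
      apply h1.mono
      rw [huo]
      have := hmN P hP
      omega
    have h3 := Place.ord_add_eq hu0 h2
    rw [add_sub_cancel, huo] at h3
    refine ⟨h3.1, h3.2, ?_⟩
    intro P' hP' hne
    have h4 := hfa P' hP'
    simp only [hne, if_false, sub_zero] at h4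
    exact h4.mono (hmN P' hP')
  choose Φ hΦ0 hΦo hΦ' using happ
  -- the linearly independent family
  let ι : Type := Σ P : S, Fin (P.1.ord h).toNat
  have hlt : ∀ i : ι, ((i.2 : ℕ) : ℤ) < i.1.1.ord h := by
    intro i
    have h1 := i.2.2
    have h2 := hm i.1.1 i.1.2
    omega
  let v : ι → ((Fin n → Polynomial k) ⧸ U) := fun i =>
    Submodule.Quotient.mk (Φ i.1.1 i.1.2 (i.2 : ℕ) (hlt i))
  have hli : LinearIndependent k v := by
    rw [Fintype.linearIndependent_iff]
    intro c hc
    have hmem : (∑ i : ι, c i • Φ i.1.1 i.1.2 (i.2 : ℕ) (hlt i)) ∈ U := by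
      rw [← Submodule.Quotient.mk_eq_zero]
      have h1 : (Submodule.Quotient.mk (∑ i : ι, c i • Φ i.1.1 i.1.2 (i.2 : ℕ) (hlt i)) :
          (Fin n → Polynomial k) ⧸ U) = ∑ i : ι, c i • v i := by
        rw [← Submodule.mkQ_apply, map_sum]
        rfl
      rw [h1, hc]
    rintro ⟨P, j⟩
    by_contra hcne
    -- the least `j` with nonzero coefficient
    have hex : ∃ m : ℕ, ∃ hm' : m < (P.1.ord h).toNat, c ⟨P, ⟨m, hm'⟩⟩ ≠ 0 := ⟨j, j.2, hcne⟩
    obtain ⟨hj', hcj⟩ := Nat.find_spec hex
    set m := Nat.find hex with hmdef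
    have hmin : ∀ m' < m, ∀ hm' : m' < (P.1.ord h).toNat, c ⟨P, ⟨m', hm'⟩⟩ = 0 := by
      intro m' hlt' hm'
      by_contra hne
      exact Nat.find_min hex hlt' ⟨hm', hne⟩
    have hG := hmem P.1 P.2
    rw [map_sum] at hG
    set i₀ : ι := ⟨P, ⟨m, hj'⟩⟩ with hi₀
    rw [← Finset.add_sum_erase Finset.univ _ (Finset.mem_univ i₀)] at hG
    have hmlt : (m : ℤ) < P.1.ord h := hlt i₀
    have hf0 : QN2_E x u (c i₀ • Φ i₀.1.1 i₀.1.2 (i₀.2 : ℕ) (hlt i₀)) ≠ 0 := by
      rw [map_smul]
      exact smul_ne_zero hcj (hΦ0 _ _ _ _)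
    have hfo : P.1.ord (QN2_E x u (c i₀ • Φ i₀.1.1 i₀.1.2 (i₀.2 : ℕ) (hlt i₀))) = m := by
      rw [map_smul, Algebra.smul_def, P.1.ord_mul _ _ (by simpa using hcj) (hΦ0 _ _ _ _),
        P.1.ord_const _ hcj, zero_add]
      exact hΦo _ _ _ _
    have hrest : P.1.Ge (P.1.ord (QN2_E x u (c i₀ • Φ i₀.1.1 i₀.1.2 (i₀.2 : ℕ) (hlt i₀))) + 1)
        (∑ i ∈ Finset.univ.erase i₀, QN2_E x u (c i • Φ i.1.1 i.1.2 (i.2 : ℕ) (hlt i))) := by
      rw [hfo]
      apply Place.Ge.sum
      rintro ⟨P', j'⟩ hi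
      have hne : (⟨P', j'⟩ : ι) ≠ i₀ := Finset.ne_of_mem_erase hi
      rw [map_smul]
      by_cases hPP : P' = P
      · subst hPP
        by_cases hlt2 : (j' : ℕ) < m
        · have h1 : c ⟨P', j'⟩ = 0 := hmin j' hlt2 j'.2
          rw [h1, zero_smul]
          exact P'.1.ge_zero _
        · have hne2 : (j' : ℕ) ≠ m := by
            intro h1
            apply hne
            rw [hi₀]
            congr 1
            exact Fin.ext h1
          apply Place.Ge.smul
          right
          rw [hΦo]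
          have : m < (j' : ℕ) := by omega
          change (m : ℤ) + 1 ≤ ((j' : ℕ) : ℤ)
          omega
      · apply Place.Ge.smul
        have h1 : P.1 ≠ P'.1 := fun h => hPP (Subtype.ext h.symm)
        have h2 := hΦ' P'.1 P'.2 (j' : ℕ) (hlt ⟨P', j'⟩) P.1 P.2 h1
        exact h2.mono (by omega)
    have hfin2 := Place.ord_add_eq hf0 hrest
    have h3 := hG.le hfin2.1
    rw [hfin2.2, hfo] at h3
    omega
  have hcard := hli.fintype_card_le_finrank
  have hc2 : Fintype.card ι = N := by
    rw [Fintype.card_sigma]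
    simp only [Fintype.card_fin]
    rw [hN, ← Finset.sum_coe_sort S (fun P => (P.ord h).toNat)]
  have hsum : ∑ P ∈ S, P.ord h = (N : ℤ) := by
    rw [hN]
    push_cast
    apply Finset.sum_congr rfl
    intro P hP
    have := hm P hP
    omega
  rw [hsum]
  omega

theorem QN2 (hV1 : QV1_stmt) (hV4 : QV4_stmt) (hV5 : QV5_stmt) (hR4 : QR4_stmt) (hM1 : QM1_stmt)
    (hN1 : QN1_stmt) : QN2_stmt := by
  intro k F _ _ _ _ hFF P₀ x n u μ hO h hreg hh0 A hA a
  obtain ⟨hdet, hdeg, _, _⟩ := hN1 k F hFF P₀ x n u μ hO h hreg hh0 A hA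
  have hfin := hV4 k F hFF h hh0
  have hV5' := hV5 k F hFF h hh0
  set H : Finset (Place k F) := hfin.toFinset.erase P₀ with hH
  have hHsum : ∑ P ∈ H, P.ord h = -P₀.ord h := by
    rw [finsum_eq_sum _ hfin] at hV5'
    by_cases hP : P₀ ∈ hfin.toFinset
    · rw [← Finset.add_sum_erase _ _ hP] at hV5'
      linarith
    · have h1 : P₀.ord h = 0 := by
        by_contra hne
        exact hP (hfin.mem_toFinset.mpr hne)
      rw [hH, Finset.erase_eq_of_notMem hP, hV5', h1, neg_zero]
  have hres : ∀ P : Place k F, P ≠ P₀ → ∃ c : k, 0 < P.ord (x - algebraMap k F c) := by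
    intro P hP
    obtain ⟨c, hc⟩ := hV1 k F hFF P x (hO.xreg P hP)
    refine ⟨c, ?_⟩
    have := hc.le (QN2_ord_sub hO.pos hO.xord c).1
    omega
  have huniq : ∀ (P : Place k F) (c c' : k), 0 < P.ord (x - algebraMap k F c) →
      0 < P.ord (x - algebraMap k F c') → c = c' := by
    intro P c c' hc hc'
    by_contra hne
    have h1 : P.Ge 1 (x - algebraMap k F c) := Or.inr hc
    have h2 : P.Ge 1 (x - algebraMap k F c') := Or.inr hc'
    have h3 := h2.sub h1
    have h4 : x - algebraMap k F c' - (x - algebraMap k F c) = algebraMap k F (c - c') := by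
      rw [map_sub]; ring
    rw [h4] at h3
    have h5 : c - c' ≠ 0 := sub_ne_zero.mpr hne
    have h6 := h3.le ((map_ne_zero (algebraMap k F)).mpr h5)
    rw [P.ord_const _ h5] at h6
    omega
  have hex : ∀ P : Place k F, ∃ c : k, P ≠ P₀ → 0 < P.ord (x - algebraMap k F c) := by
    intro P
    by_cases hP : P = P₀
    · exact ⟨0, fun h => absurd hP h⟩
    · obtain ⟨c, hc⟩ := hres P hP
      exact ⟨c, fun _ => hc⟩
  choose res hresP using hex
  have hle : ∀ b : k, ∑ P ∈ H.filter (fun P => 0 < P.ord (x - algebraMap k F b)), P.ord h ≤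
      (Polynomial.rootMultiplicity b A.det : ℤ) := by
    intro b
    apply QN2_ge hR4 hM1 k F hFF P₀ x n u μ hO h hreg hh0 A hA hdet b
    intro P hP
    exact (Finset.mem_filter.mp hP).2
  set T : Finset k := A.det.roots.toFinset ∪ (H.image res ∪ {a}) with hT
  have haT : a ∈ T := by simp [hT]
  have hr : ∑ b ∈ T, (Polynomial.rootMultiplicity b A.det : ℤ) = A.det.natDegree := by
    have h1 : ∑ b ∈ T, A.det.roots.count b = Multiset.card A.det.roots := by
      apply Multiset.sum_count_eq_card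
      intro b hb
      rw [hT, Finset.mem_union]
      exact Or.inl (Multiset.mem_toFinset.mpr hb)
    have h2 : Multiset.card A.det.roots = A.det.natDegree :=
      (IsAlgClosed.splits A.det).natDegree_eq_card_roots.symm
    rw [← h2, ← h1]
    push_cast
    refine Finset.sum_congr rfl fun b _ => ?_
    rw [Polynomial.count_roots]
  have hs : ∑ b ∈ T, ∑ P ∈ H.filter (fun P => 0 < P.ord (x - algebraMap k F b)), P.ord h =
      ∑ P ∈ H, P.ord h := by
    simp only [Finset.sum_filter]
    rw [Finset.sum_comm]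
    refine Finset.sum_congr rfl fun P hP => ?_
    have hPne : P ≠ P₀ := Finset.ne_of_mem_erase hP
    have hmem : res P ∈ T := by
      rw [hT, Finset.mem_union, Finset.mem_union]
      exact Or.inr (Or.inl (Finset.mem_image_of_mem _ hP))
    rw [Finset.sum_eq_single_of_mem (res P) hmem]
    · rw [if_pos (hresP P hPne)]
    · intro b _ hb
      rw [if_neg]
      intro hb2
      exact hb (huniq P b (res P) hb2 (hresP P hPne))
  have heq : ∑ b ∈ T, ∑ P ∈ H.filter (fun P => 0 < P.ord (x - algebraMap k F b)), P.ord h =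
      ∑ b ∈ T, (Polynomial.rootMultiplicity b A.det : ℤ) := by
    rw [hs, hr, hHsum, hdeg]
  have hall := (Finset.sum_eq_sum_iff_of_le (fun b _ => hle b)).mp heq a haT
  rw [← hall]
  symm
  have hsub : Function.support (fun P : Place k F =>
      if 0 < P.ord (x - algebraMap k F a) then P.ord h else 0) ⊆
      ((H.filter (fun P => 0 < P.ord (x - algebraMap k F a)) : Finset (Place k F)) :
        Set (Place k F)) := by
    intro P hP
    rw [Function.mem_support] at hP
    by_cases h1 : 0 < P.ord (x - algebraMap k F a)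
    · rw [if_pos h1] at hP
      rw [Finset.mem_coe, Finset.mem_filter]
      refine ⟨?_, h1⟩
      rw [hH, Finset.mem_erase]
      refine ⟨?_, hfin.mem_toFinset.mpr hP⟩
      rintro rfl
      rw [(QN2_ord_sub hO.pos hO.xord a).2] at h1
      have := hO.pos
      omega
    · rw [if_neg h1] at hP
      exact absurd rfl hP
  rw [finsum_eq_sum_of_support_subset _ hsub]
  refine Finset.sum_congr rfl fun P hP => ?_
  rw [if_pos (Finset.mem_filter.mp hP).2]

end

end Pool.Agent.helper53.AU
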