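import Pool.Agent.helper75.AU.SpecW

/-!
# Project au (MP_97532f_ag), geometric part, module QW5: `1, y` is an Apery basis
-/

set_option linter.unusedVariables false

namespace Pool.Agent.helper53.AU

open scoped Classical IntermediateField
open Polynomial (aeval)

noncomputable section

/-- the unit element of an Apery basis of degree two: `u 0` is a constant, `μ 0 = 0` -/
theorem QW5_unit (hA2 : QA2_stmt) {k F : Type} [Field k] [Field F] [Algebra k F]
    {P₀ : Place k F} {x : F} {u : Fin 2 → F} {μ : Fin 2 → ℕ} (h : OneP P₀ x 2 u μ) :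
    ∃ c : k, c ≠ 0 ∧ algebraMap k F c * u 0 = 1 := by
  have h1reg : (1 : F) ∈ Reg P₀ := (Reg P₀).one_mem
  obtain ⟨φ, hφ⟩ := h.span 1 h1reg
  have hne : ∃ i, φ i ≠ 0 := by
    by_contra hcon
    push Not at hcon
    apply one_ne_zero (α := F)
    rw [hφ]
    apply Finset.sum_eq_zero
    intro i _
    rw [hcon i]; simp
  obtain ⟨_, hle, _⟩ := hA2 k F P₀ x 2 u μ h φ hne
  rw [← hφ, P₀.ord_one] at hle
  have hφ1 : φ 1 = 0 := by
    by_contra hcon
    have h2 := hle 1 hcon
    have h3 := h.res 1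
    have h4 : μ 1 % 2 = 1 := by simpa using h3
    push_cast at h2
    omega
  have hφ0 : φ 0 ≠ 0 := by
    obtain ⟨i, hi⟩ := hne
    fin_cases i
    · exact hi
    · exact absurd hφ1 hi
  have h5 := hle 0 hφ0
  have hdeg : (φ 0).natDegree = 0 := by
    push_cast at h5
    omega
  obtain ⟨c, hc⟩ := Polynomial.natDegree_eq_zero.mp hdeg
  refine ⟨c, ?_, ?_⟩
  · rintro rfl
    apply hφ0
    rw [← hc]; simp
  · rw [Fin.sum_univ_two, hφ1, ← hc] at hφ
    simpa using hφ.symm

theorem QW5 (hA1 : QA1_stmt) (hA2 : QA2_stmt) : QW5_stmt := by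
  intro k F _ _ _ _ hFF f x y m P₀ h2 hsq hdeg hH hx hy hox hoy
  obtain ⟨u, μ, h⟩ := hA1 k F hFF P₀ x 2 (by norm_num) hx (by rw [hox]; norm_num)
  obtain ⟨c, hc0, hc⟩ := QW5_unit hA2 h
  have hcF : algebraMap k F c ≠ 0 := by simpa using hc0
  have hy0 : y ≠ 0 := by
    rintro rfl
    rw [P₀.ord_zero] at hoy
    push_cast at hoy
    omega
  have hu0 : u 0 = algebraMap k F c⁻¹ := by
    rw [map_inv₀]
    exact eq_inv_of_mul_eq_one_right hc
  -- independence of `1` and `v`
  have hind : ∀ p q : Polynomial k, aeval x p + aeval x q * u 1 = 0 → p = 0 ∧ q = 0 := by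
    intro p q hpq
    by_contra hcon
    have hne : ∃ i, (![Polynomial.C c * p, q] : Fin 2 → Polynomial k) i ≠ 0 := by
      by_contra hcon2
      push Not at hcon2
      apply hcon
      have e0 := hcon2 0
      have e1 := hcon2 1
      simp only [Matrix.cons_val_zero, Matrix.cons_val_one, mul_eq_zero] at e0 e1
      refine ⟨e0.resolve_left (by simpa using hc0), by simpa using e1⟩
    obtain ⟨hz, _, _⟩ := hA2 k F P₀ x 2 u μ h _ hne
    apply hz
    rw [Fin.sum_univ_two]
    simp only [Matrix.cons_val_zero, Matrix.cons_val_one, map_mul, Polynomial.aeval_C]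
    linear_combination hpq + aeval x p * hc
  -- `y = a(x) + b(x) v`
  obtain ⟨φ, hφ⟩ := h.span y hy
  have hφne : ∃ i, φ i ≠ 0 := by
    by_contra hcon
    push Not at hcon
    apply hy0
    rw [hφ]
    apply Finset.sum_eq_zero
    intro i _
    rw [hcon i]; simp
  obtain ⟨_, _, i, hi0, hi⟩ := hA2 k F P₀ x 2 u μ h φ hφne
  rw [← hφ, hoy] at hi
  have hi1 : i = 1 := by
    fin_cases i
    · exfalso
      have h3 := h.res 0
      have h4 : μ 0 % 2 = 0 := by simpa using h3
      simp only [Fin.zero_eta] at hi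
      push_cast at hi
      omega
    · rfl
  subst hi1
  obtain ⟨ψ, hψ⟩ := h.span (u 1 * u 1) ((Reg P₀).mul_mem (h.reg 1) (h.reg 1))
  rw [Fin.sum_univ_two, hu0] at hφ hψ
  -- notation
  set a : Polynomial k := φ 0 * Polynomial.C c⁻¹ with ha
  set b : Polynomial k := φ 1 with hb
  set α : Polynomial k := ψ 0 * Polynomial.C c⁻¹ with hα
  set β : Polynomial k := ψ 1 with hβ
  have hy' : y = aeval x a + aeval x b * u 1 := by
    rw [ha, map_mul, Polynomial.aeval_C]; exact hφ
  have hv' : u 1 * u 1 = aeval x α + aeval x β * u 1 := by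
    rw [hα, map_mul, Polynomial.aeval_C]; exact hψ
  obtain ⟨e1, e2⟩ := hind (a * a + b * b * α - f) (2 * a * b + b * b * β) (by
    have e := hH.eq
    simp only [map_add, map_sub, map_mul, map_ofNat]
    rw [← e]
    linear_combination (-(y + aeval x a + aeval x b * u 1)) * hy' - (aeval x b) ^ 2 * hv')
  have hb0 : b ≠ 0 := hi0
  have e3 : 2 * a + b * β = 0 := by
    have e4 : b * (2 * a + b * β) = 0 := by linear_combination e2
    exact (mul_eq_zero.mp e4).resolve_left hb0
  have hdvd : b * b ∣ f := by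
    have h4 : (Polynomial.C (2⁻¹ : k)) * 2 = 1 := by
      rw [← Polynomial.C_ofNat, ← Polynomial.C_mul, inv_mul_cancel₀ h2, Polynomial.C_1]
    have e5 : a = - (Polynomial.C (2⁻¹ : k)) * (b * β) := by
      linear_combination (Polynomial.C (2⁻¹ : k)) * e3 - a * h4
    refine ⟨(Polynomial.C (2⁻¹ : k)) ^ 2 * β ^ 2 + α, ?_⟩
    linear_combination -e1 + (a - (Polynomial.C (2⁻¹ : k)) * (b * β)) * e5
  have hbu : IsUnit b := hsq b hdvd
  obtain ⟨b₀, hb₀u, hb₀⟩ := Polynomial.isUnit_iff.mp hbu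
  have hb₀0 : b₀ ≠ 0 := hb₀u.ne_zero
  have hb₀F : algebraMap k F b₀ ≠ 0 := by simpa using hb₀0
  have hv : u 1 = algebraMap k F b₀⁻¹ * (y - aeval x a) := by
    have e6 : y - aeval x a = algebraMap k F b₀ * u 1 := by
      rw [hy', ← hb₀, Polynomial.aeval_C]; ring
    rw [e6, map_inv₀, inv_mul_cancel_left₀ hb₀F]
  refine
    { pos := by norm_num
      xreg := hx
      xord := by rw [hox]; norm_num
      reg := ?_
      ne := ?_
      ord := ?_
      res := ?_
      span := ?_ }
  · intro i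
    fin_cases i
    · exact (Reg P₀).one_mem
    · exact hy
  · intro i
    fin_cases i
    · exact one_ne_zero
    · exact hy0
  · intro i
    fin_cases i
    · simp [P₀.ord_one]
    · simpa using hoy
  · intro i
    fin_cases i
    · rfl
    · show (2 * m + 1) % 2 = 1
      omega
  · intro w hw
    obtain ⟨χ, hχ⟩ := h.span w hw
    refine ⟨![χ 0 * Polynomial.C c⁻¹ - χ 1 * Polynomial.C b₀⁻¹ * a, χ 1 * Polynomial.C b₀⁻¹], ?_⟩
    rw [Fin.sum_univ_two, hu0, hv] at hχ
    rw [Fin.sum_univ_two, hχ]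
    simp only [Matrix.cons_val_zero, Matrix.cons_val_one, map_mul, map_sub, Polynomial.aeval_C]
    ring

end

end Pool.Agent.helper53.AU
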