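import Pool.Agent.helper75.AU.SpecR

/-!
# Project au, module II7
-/

namespace Pool.Agent.helper75.AU

open scoped Classical
open Pool.Agent.helper53.AU MulAction

theorem II7 (h1 : II1_stmt) (h6 : II6_stmt) (hSS : SS1_stmt) (hBU : BU_stmt) : II7_stmt := by
  intro Gam Om _ _ L c ctx
  have finG : Finite Gam := ctx.finG
  have finO : Finite Om := ctx.finO
  have faithG : FaithfulSMul Gam Om := ctx.faithful
  have faithL : FaithfulSMul L Om := ⟨fun {v w} h => Subtype.ext
    (faithG.eq_of_smul_eq_smul (fun a => h a))⟩
  have hprim : Prim L Om := h6 Gam Om L c ctx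
  set c' : L := ⟨c, ctx.mem⟩ with hc'
  set A : Subgroup L := Subgroup.zpowers c' with hA
  have hpow : ∀ n : ℕ, ∀ a : Om, (c' ^ n : L) • a = c ^ n • a := by
    intro n a
    rfl
  have htrA : ∀ a b : Om, ∃ v ∈ A, v • a = b := by
    intro a b
    obtain ⟨n, hn⟩ := ctx.tr a b
    exact ⟨c' ^ n, Subgroup.pow_mem _ (Subgroup.mem_zpowers c') n, by rw [hpow]; exact hn⟩
  have hcycA : IsCyclic A := by rw [hA]; infer_instance
  by_cases hp : (Nat.card Om).Prime
  · have hpre : IsPretransitive L Om := ⟨fun a b => by
      obtain ⟨v, _, hv⟩ := htrA a b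
      exact ⟨v, hv⟩⟩
    have hone : 1 < Nat.card Om := ctx.one
    have hne : Nonempty Om := by
      by_contra hcon
      rw [not_nonempty_iff] at hcon
      rw [Nat.card_of_isEmpty] at hone
      omega
    obtain ⟨a⟩ := hne
    -- `A` is abelian
    have habel : ∀ v ∈ A, ∀ w ∈ A, v * w = w * v := by
      intro v hv w hw
      obtain ⟨i, rfl⟩ := Subgroup.mem_zpowers_iff.mp hv
      obtain ⟨j, rfl⟩ := Subgroup.mem_zpowers_iff.mp hw
      rw [← zpow_add, ← zpow_add, add_comm]
    have hbij : Function.Bijective (fun v : A => (v : L) • a) := by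
      constructor
      · intro v w hvw
        apply Subtype.ext
        apply faithL.eq_of_smul_eq_smul
        intro b
        obtain ⟨u, hu, hub⟩ := htrA a b
        have hvw' : (v : L) • a = (w : L) • a := hvw
        rw [← hub, ← mul_smul, ← mul_smul, habel _ v.2 _ hu, habel _ w.2 _ hu, mul_smul, mul_smul,
          hvw']
      · intro b
        obtain ⟨u, hu, hub⟩ := htrA a b
        exact ⟨⟨u, hu⟩, hub⟩
    have hcardA : Nat.card A = Nat.card Om := Nat.card_congr (Equiv.ofBijective _ hbij)
    rcases hBU L Om A hp hcardA hpre with h | hN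
    · exact h
    · exfalso
      -- the index of `A` is prime to `|Om|`
      have hst : Nat.card (stabilizer L a) = Nat.card (L ⊓ stabilizer Gam a : Subgroup Gam) := by
        have hmap : (stabilizer L a).map L.subtype = L ⊓ stabilizer Gam a := by
          ext g
          simp only [Subgroup.mem_map, Subgroup.mem_inf, mem_stabilizer_iff]
          constructor
          · rintro ⟨v, hv, rfl⟩
            exact ⟨v.2, hv⟩
          · rintro ⟨hg, hga⟩
            exact ⟨⟨g, hg⟩, hga, rfl⟩
        rw [← hmap]
        exact Nat.card_congr ((stabilizer L a).equivMapOfInjective L.subtype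
          L.subtype_injective).toEquiv
      have hcop : Nat.Coprime (Nat.card (stabilizer L a)) (Nat.card Om) := by
        rw [hst]; exact ctx.copr a
      have hidx : A.index = Nat.card (stabilizer L a) := by
        have e1 : Nat.card A * A.index = Nat.card L := Subgroup.card_mul_index A
        have e2 : Nat.card (stabilizer L a) * (stabilizer L a).index = Nat.card L :=
          Subgroup.card_mul_index _
        have e3 : (stabilizer L a).index = Nat.card Om :=
          MulAction.index_stabilizer_of_transitive L a
        rw [e3] at e2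
        rw [hcardA, ← e2, mul_comm] at e1
        exact Nat.eq_of_mul_eq_mul_right (by omega) e1
      have hhall : ∀ v : L, v ^ Nat.card Om = 1 → v ∈ A := by
        intro v hv
        have h2 : ((v : L) : L ⧸ A) ^ Nat.card Om = 1 := by
          rw [← QuotientGroup.mk_pow, hv, QuotientGroup.mk_one]
        have h3 : orderOf ((v : L) : L ⧸ A) ∣ Nat.card Om := orderOf_dvd_of_pow_eq_one h2
        have h4 : orderOf ((v : L) : L ⧸ A) ∣ A.index := by
          rw [Subgroup.index_eq_card]
          exact orderOf_dvd_natCard _
        rw [hidx] at h4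
        have h5 : orderOf ((v : L) : L ⧸ A) = 1 := Nat.eq_one_of_dvd_coprimes hcop h4 h3
        rw [orderOf_eq_one_iff] at h5
        exact (QuotientGroup.eq_one_iff v).mp h5
      -- `⟨c⟩` is normal in `Gam`
      have hnormal : (Subgroup.zpowers c).Normal := by
        constructor
        intro x hx γ
        have hxL : x ∈ L := by
          obtain ⟨i, rfl⟩ := Subgroup.mem_zpowers_iff.mp hx
          exact Subgroup.zpow_mem _ ctx.mem i
        have hL := ctx.normal.conj_mem x hxL γ
        have hxp : x ^ Nat.card Om = 1 := by
          obtain ⟨i, rfl⟩ := Subgroup.mem_zpowers_iff.mp hx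
          have : (c' : L) ^ Nat.card Om = 1 := by
            have h7 : orderOf c' = Nat.card Om := by
              rw [← hcardA, hA, Nat.card_zpowers]
            rw [← h7, pow_orderOf_eq_one]
          have h8 : c ^ Nat.card Om = 1 := congrArg Subtype.val this
          rw [← zpow_natCast, ← zpow_mul, mul_comm, zpow_mul, zpow_natCast, h8, one_zpow]
        have hv : (⟨γ * x * γ⁻¹, hL⟩ : L) ^ Nat.card Om = 1 := by
          apply Subtype.ext
          change (γ * x * γ⁻¹) ^ Nat.card Om = 1
          rw [conj_pow, hxp, mul_one, mul_inv_cancel]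
        have h9 := hhall _ hv
        obtain ⟨i, hi⟩ := Subgroup.mem_zpowers_iff.mp h9
        refine Subgroup.mem_zpowers_iff.mpr ⟨i, ?_⟩
        exact congrArg Subtype.val hi
      have hbot := h1 Gam Om L c ctx (Subgroup.zpowers c) le_rfl hnormal
      rw [Subgroup.zpowers_eq_bot] at hbot
      have hsub : Subsingleton Om := ⟨fun x y => by
        obtain ⟨n, hn⟩ := ctx.tr x y
        rw [hbot, one_pow, one_smul] at hn
        exact hn⟩
      have := Finite.card_le_one_iff_subsingleton (α := Om)
      have h10 := this.mpr hsub
      omega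
  · exact hSS L Om A hprim hcycA htrA hp

end Pool.Agent.helper75.AU
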