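import Pool.Agent.helper75.AU.SpecR

/-!
# Project au, module N1
-/

namespace Pool.Agent.helper75.AU

open scoped Classical
open Pool.Agent.helper53.AU MulAction

theorem N1 (hBA1 : BA1_stmt) (hBA2 : BA2_stmt) (hS61 : S61_stmt) : N1_stmt := by
  intro k G X _ _ _ _ _ _ l R x y D u h' e' hSp hTwo hNum
  obtain ⟨_, _, hix, hiy, _, hPle⟩ := hS61 k G X l R x y hSp hTwo
  obtain ⟨hDpos, hupos, hh'pos, he'pos⟩ := hNum.pos
  have hgx : Nat.card (stabilizer G x) = qq R x * hh R x := (hBA1 k G X (l + 1) R x).2.2.2.2.2.2.1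
  have hgy : Nat.card (stabilizer G y) = qq R y * hh R y := (hBA1 k G X (l + 1) R y).2.2.2.2.2.2.1
  obtain ⟨⟨cx, _, hcx, _, _⟩, _⟩ := hBA2 k G X (l + 1) R x (thr G)
  obtain ⟨⟨cy, hcym, hcy, _, hcyg⟩, _⟩ := hBA2 k G X (l + 1) R y (thr G)
  rw [inf_comm (thr G) (stabilizer G x), inf_eq_right.mpr (hPle x)] at hcx
  rw [inf_comm (thr G) (stabilizer G y), inf_eq_right.mpr (hPle y)] at hcy
  change _ = qq R x * orderOf cx at hcx
  change _ = qq R y * orderOf cy at hcy
  have hqx : 0 < qq R x := Nat.card_pos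
  have hqy : 0 < qq R y := Nat.card_pos
  set n := (thr G).index with hn
  have hnpos : 0 < n := Nat.pos_of_ne_zero Subgroup.index_ne_zero_of_finite
  rw [hcx, hgx, hNum.hx] at hix
  rw [hcy, hgy, hNum.hy] at hiy
  have h1 : n * orderOf cx = u * h' := by
    have : qq R x * (n * orderOf cx) = qq R x * (u * h') := by rw [← hix]; ring
    exact Nat.eq_of_mul_eq_mul_left hqx this
  have h2 : n * orderOf cy = u * e' := by
    have : qq R y * (n * orderOf cy) = qq R y * (u * e') := by rw [← hiy]; ring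
    exact Nat.eq_of_mul_eq_mul_left hqy this
  have h3 : n ∣ u := by
    have h4 : n ∣ Nat.gcd (u * h') (u * e') := Nat.dvd_gcd ⟨_, h1.symm⟩ ⟨_, h2.symm⟩
    rw [Nat.gcd_mul_left, hNum.cop.gcd_eq_one, mul_one] at h4
    exact h4
  obtain ⟨u₁, hu₁⟩ := h3
  have hu₁pos : 0 < u₁ := by
    rcases Nat.eq_zero_or_pos u₁ with h | h
    · rw [h, mul_zero] at hu₁; omega
    · exact h
  have h5 : orderOf cx = u₁ * h' := by
    rw [hu₁, mul_assoc] at h1
    exact Nat.eq_of_mul_eq_mul_left hnpos h1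
  have h6 : orderOf cy = u₁ * e' := by
    rw [hu₁, mul_assoc] at h2
    exact Nat.eq_of_mul_eq_mul_left hnpos h2
  refine ⟨u₁, hu₁pos, hu₁, ?_, ?_, ?_, cy, ?_, h6, ?_⟩
  · have h7 : n * Nat.card (thr G) = Nat.card G := Subgroup.index_mul_card _
    rw [hNum.N, hu₁] at h7
    have : n * Nat.card (thr G) = n * (D * qq R x * u₁ * e' * h') := by rw [h7]; ring
    exact Nat.eq_of_mul_eq_mul_left hnpos this
  · rw [hcx, h5]; ring
  · rw [hcy, h6]
  · rw [inf_comm]; exact hcym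
  · intro s hs
    rw [inf_comm] at hs
    obtain ⟨p, hp, m, hm⟩ := hcyg s hs
    exact ⟨p, hp.2, m, hm⟩

end Pool.Agent.helper75.AU
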