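import Pool.Agent.helper75.AU.SpecR

/-!
# Project au, module PI
-/

namespace Pool.Agent.helper75.AU

open scoped Classical
open Pool.Agent.helper53.AU MulAction

theorem PI_aux {G : Type} [Group G] (g : G) (S : Sylow 3 G) (s : G) :
    s ∈ ((g • S : Sylow 3 G) : Subgroup G) ↔ g⁻¹ * s * g ∈ (S : Subgroup G) := by
  rw [Sylow.coe_subgroup_smul, Subgroup.mem_pointwise_smul_iff_inv_smul_mem]
  simp [MulAut.smul_def, ← map_inv, MulAut.conj_apply]

theorem PI (hBA1 : BA1_stmt) : PI_stmt := by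
  intro k G X _ _ _ _ _ _ l R x hsyl hne
  obtain ⟨S₀, hS₀⟩ := hsyl
  have hf3 : Fact (Nat.Prime 3) := ⟨Nat.prime_three⟩
  have hPmem : ∀ (z : X) (s : G), s ∈ R.P z ↔ s • z = z ∧ (s = 1 ∨ 1 ≤ R.i z s) :=
    fun z => (hBA1 k G X (l + 1) R z).2.1
  have hP3 : ∀ (z : X) (s : G), s • z = z → (∃ n : ℕ, s ^ (3 ^ n) = 1) → s ∈ R.P z :=
    fun z => (hBA1 k G X (l + 1) R z).2.2.1
  have hPc : ∀ (z : X) (a s : G), a * s * a⁻¹ ∈ R.P (a • z) ↔ s ∈ R.P z :=
    fun z => (hBA1 k G X (l + 1) R z).2.2.2.1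
  have hPg : IsPGroup 3 (R.P x) := (hBA1 k G X (l + 1) R x).1
  -- `P (a • z)` in terms of `P z`
  have hPc' : ∀ (z : X) (a s : G), s ∈ R.P (a • z) ↔ a⁻¹ * s * a ∈ R.P z := by
    intro z a s
    rw [← hPc z a (a⁻¹ * s * a)]
    have : a * (a⁻¹ * s * a) * a⁻¹ = s := by group
    rw [this]
  have hex : ∀ z : {z : X // z ∈ orbit G x}, ∃ S : Sylow 3 G, (S : Subgroup G) = R.P z.1 := by
    rintro ⟨z, a, rfl⟩
    refine ⟨a • S₀, ?_⟩
    ext s
    rw [PI_aux, hS₀]
    exact (hPc' x a s).symm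
  choose pi hpi using hex
  set f : ℕ := Nat.card {z : X // z ∈ orbit G x ∧ R.P z = R.P x} with hf
  have hfib : ∀ S : Sylow 3 G,
      Nat.card {z : X // z ∈ orbit G x ∧ R.P z = (S : Subgroup G)} = f := by
    intro S
    obtain ⟨g, hg⟩ := MulAction.exists_smul_eq G S₀ S
    have hgS : ∀ s : G, s ∈ (S : Subgroup G) ↔ g⁻¹ * s * g ∈ R.P x := by
      intro s
      rw [← hg, PI_aux, hS₀]
    symm
    refine Nat.card_congr ⟨fun z => ⟨g • z.1, ?_⟩, fun z => ⟨g⁻¹ • z.1, ?_⟩, ?_, ?_⟩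
    · obtain ⟨⟨a, ha⟩, hz⟩ := z.2
      refine ⟨⟨g * a, ?_⟩, ?_⟩
      · have ha' : a • x = z.1 := ha
        change (g * a) • x = g • z.1
        rw [mul_smul, ha']
      · ext s
        rw [hPc', hz, hgS]
    · obtain ⟨⟨a, ha⟩, hz⟩ := z.2
      refine ⟨⟨g⁻¹ * a, ?_⟩, ?_⟩
      · have ha' : a • x = z.1 := ha
        change (g⁻¹ * a) • x = g⁻¹ • z.1
        rw [mul_smul, ha']
      · ext s
        rw [hPc', hz, hgS]
        have : g⁻¹ * (g⁻¹⁻¹ * s * g⁻¹) * g = s := by group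
        rw [this]
    · intro z
      apply Subtype.ext
      simp
    · intro z
      apply Subtype.ext
      simp
  have hfpos : 0 < f := by
    rw [hf]
    have : Nonempty {z : X // z ∈ orbit G x ∧ R.P z = R.P x} :=
      ⟨⟨x, mem_orbit_self x, rfl⟩⟩
    exact Nat.card_pos
  have hcard : oo G x = f * Nat.card (Sylow 3 G) := by
    unfold oo
    have h1 : Nat.card (orbit G x) = ∑ S : Sylow 3 G, Nat.card {z : orbit G x // pi z = S} := by
      rw [← Nat.card_sigma]
      exact (Nat.card_congr (Equiv.sigmaFiberEquiv pi)).symm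
    rw [h1]
    have h2 : ∀ S : Sylow 3 G, Nat.card {z : orbit G x // pi z = S} = f := by
      intro S
      rw [← hfib S]
      refine Nat.card_congr ⟨fun z => ⟨z.1.1, z.1.2, ?_⟩, fun z => ⟨⟨z.1, z.2.1⟩, ?_⟩, ?_, ?_⟩
      · have h3 := hpi z.1
        rw [z.2] at h3
        exact h3.symm
      · apply Sylow.ext
        rw [hpi]; exact z.2.2
      · intro z; rfl
      · intro z; rfl
    rw [Finset.sum_congr rfl (fun S _ => h2 S), Finset.sum_const, Finset.card_univ,
      ← Nat.card_eq_fintype_card, smul_eq_mul, mul_comm]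
  have hstar : ∀ z : X, z ∈ orbit G x → (R.P z = R.P x ↔ ∀ s ∈ R.P x, s • z = z) := by
    intro z hz
    constructor
    · intro h s hs
      rw [← h] at hs
      exact ((hPmem z s).mp hs).1
    · intro h
      have hle : R.P x ≤ R.P z := by
        intro s hs
        refine hP3 z s (h s hs) ?_
        obtain ⟨n, hn⟩ := hPg ⟨s, hs⟩
        exact ⟨n, congrArg Subtype.val hn⟩
      symm
      apply Subgroup.eq_of_le_of_card_ge hle
      rw [← hpi ⟨z, hz⟩, ← hS₀]
      rw [Sylow.card_eq_multiplicity, Sylow.card_eq_multiplicity]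
  refine ⟨f, pi, hpi, hfib, hfpos, hcard, hstar, ?_⟩
  intro htr
  set N : Subgroup G := Subgroup.normalizer (R.P x : Set G) ⊓ thr G with hN
  have hNmem : ∀ b : G, b ∈ N ↔ R.P (b • x) = R.P x ∧ b ∈ thr G := by
    intro b
    rw [hN, Subgroup.mem_inf, Subgroup.mem_normalizer_iff'']
    constructor
    · rintro ⟨h1, h2⟩
      refine ⟨?_, h2⟩
      ext s
      rw [hPc', ← h1]
    · rintro ⟨h1, h2⟩
      refine ⟨fun s => ?_, h2⟩
      rw [← hPc' x b s, h1]
  -- the orbit of `x` under `N` is the fibre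
  have horb : Nat.card (orbit N x) = f := by
    rw [hf]
    refine Nat.card_congr ⟨fun z => ⟨z.1, ?_⟩, fun z => ⟨z.1, ?_⟩, fun _ => rfl, fun _ => rfl⟩
    · obtain ⟨b, hb⟩ := z.2
      have hb' : (b : G) • x = z.1 := hb
      refine ⟨⟨b, hb'⟩, ?_⟩
      rw [← hb']
      exact ((hNmem b).mp b.2).1
    · obtain ⟨⟨a, ha⟩, hz⟩ := z.2
      have ha' : a • x = z.1 := ha
      obtain ⟨b, hb, hba⟩ := htr a
      rw [ha'] at hba
      refine ⟨⟨b, (hNmem b).mpr ⟨?_, hb⟩⟩, hba⟩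
      rw [hba]; exact hz
  have hstab : Nat.card (stabilizer N x) = Nat.card (stabilizer G x ⊓ thr G : Subgroup G) := by
    have hmap : (stabilizer N x).map N.subtype = stabilizer G x ⊓ thr G := by
      ext g
      simp only [Subgroup.mem_map, Subgroup.mem_inf, mem_stabilizer_iff]
      constructor
      · rintro ⟨v, hv, rfl⟩
        exact ⟨hv, ((hNmem v).mp v.2).2⟩
      · rintro ⟨hg, hga⟩
        exact ⟨⟨g, (hNmem g).mpr ⟨by rw [hg], hga⟩⟩, hg, rfl⟩
    rw [← hmap]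
    exact Nat.card_congr ((stabilizer N x).equivMapOfInjective N.subtype
      N.subtype_injective).toEquiv
  have h1 : Nat.card (stabilizer N x) * (stabilizer N x).index = Nat.card N :=
    Subgroup.card_mul_index _
  rw [MulAction.index_stabilizer, ← Nat.card_coe_set_eq, horb, hstab] at h1
  rw [← h1, mul_comm]

end Pool.Agent.helper75.AU
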