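import Pool.Agent.helper75.AU.SpecR

/-!
# Project au, module RC4 (C4)
-/

namespace Pool.Agent.helper75.AU

open scoped Classical
open Pool.Agent.helper53.AU MulAction

/-- the square of an automorphism acts trivially on a quotient of order 3 -/
theorem RC4_sq {G : Type} [Group G] [Finite G] (P Q : Subgroup G) (hQP : Q ≤ P)
    (hcard : Nat.card P = 3 * Nat.card Q) (hPQ : ∀ p ∈ P, ∀ s ∈ Q, p * s * p⁻¹ ∈ Q) (c : G)
    (hcP : ∀ s ∈ P, c * s * c⁻¹ ∈ P) (hcQ : ∀ s ∈ Q, c * s * c⁻¹ ∈ Q)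
    (hcQ' : ∀ s, c * s * c⁻¹ ∈ Q → s ∈ Q) :
    ∀ s ∈ P, (c * c) * s * (c * c)⁻¹ * s⁻¹ ∈ Q := by
  intro s hs
  have hnorm : (Q.subgroupOf P).Normal := by
    constructor
    intro n hn g
    rw [Subgroup.mem_subgroupOf] at hn ⊢
    exact hPQ g g.2 n hn
  have hK : Nat.card (P ⧸ Q.subgroupOf P) = 3 := by
    have h1 := Subgroup.card_eq_card_quotient_mul_card_subgroup (Q.subgroupOf P)
    have h2 : Nat.card (Q.subgroupOf P) = Nat.card Q :=
      Nat.card_congr (Subgroup.subgroupOfEquivOfLe hQP).toEquiv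
    rw [h2, hcard] at h1
    have hpos : 0 < Nat.card Q := Nat.card_pos
    exact (Nat.eq_of_mul_eq_mul_right hpos h1).symm
  have hf : Fact (Nat.Prime 3) := ⟨Nat.prime_three⟩
  have hcs : c * s * c⁻¹ ∈ P := hcP s hs
  have hccs : (c * c) * s * (c * c)⁻¹ ∈ P := by
    have : (c * c) * s * (c * c)⁻¹ = c * (c * s * c⁻¹) * c⁻¹ := by group
    rw [this]; exact hcP _ hcs
  by_cases hsQ : s ∈ Q
  · have h1 : (c * c) * s * (c * c)⁻¹ ∈ Q := by
      have : (c * c) * s * (c * c)⁻¹ = c * (c * s * c⁻¹) * c⁻¹ := by group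
      rw [this]; exact hcQ _ (hcQ _ hsQ)
    exact Q.mul_mem h1 (Q.inv_mem hsQ)
  · set a : P ⧸ Q.subgroupOf P := QuotientGroup.mk ⟨s, hs⟩ with ha
    have ha1 : a ≠ 1 := by
      intro h
      rw [ha, QuotientGroup.eq_one_iff, Subgroup.mem_subgroupOf] at h
      exact hsQ h
    have ha3 : a ^ 3 = 1 := by
      rw [← hK]; exact pow_card_eq_one'
    set b : P ⧸ Q.subgroupOf P := QuotientGroup.mk ⟨c * s * c⁻¹, hcs⟩ with hb
    obtain ⟨n, hn⟩ := Subgroup.mem_zpowers_iff.mp (mem_zpowers_of_prime_card (g' := b) hK ha1)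
    -- `c s c⁻¹ = s ^ n * q`
    have hq : (s ^ n)⁻¹ * (c * s * c⁻¹) ∈ Q := by
      have h1 : (QuotientGroup.mk (s := Q.subgroupOf P) (⟨s, hs⟩ ^ n : P)) =
          QuotientGroup.mk (⟨c * s * c⁻¹, hcs⟩ : P) := by
        rw [← hb, ← hn, ha]; rfl
      rw [QuotientGroup.eq, Subgroup.mem_subgroupOf] at h1
      exact h1
    have hbq : c * ((s ^ n)⁻¹ * (c * s * c⁻¹)) * c⁻¹ ∈ Q := hcQ _ hq
    have hd : (QuotientGroup.mk (s := Q.subgroupOf P) (⟨(c * c) * s * (c * c)⁻¹, hccs⟩ : P)) =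
        b ^ n := by
      have h1 : b ^ n = QuotientGroup.mk (s := Q.subgroupOf P) ((⟨c * s * c⁻¹, hcs⟩ : P) ^ n) := rfl
      rw [h1, eq_comm, QuotientGroup.eq, Subgroup.mem_subgroupOf]
      change ((c * s * c⁻¹) ^ n)⁻¹ * ((c * c) * s * (c * c)⁻¹) ∈ Q
      have h2 : ((c * s * c⁻¹) ^ n)⁻¹ * ((c * c) * s * (c * c)⁻¹) =
          c * ((s ^ n)⁻¹ * (c * s * c⁻¹)) * c⁻¹ := by
        rw [conj_zpow]; group
      rw [h2]; exact hbq
    have hn3 : ¬ (3 : ℤ) ∣ n := by
      rintro ⟨k, rfl⟩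
      rw [zpow_mul] at hn
      have : a ^ (3 : ℤ) = 1 := by exact_mod_cast ha3
      rw [this, one_zpow] at hn
      rw [eq_comm, hb, QuotientGroup.eq_one_iff, Subgroup.mem_subgroupOf] at hn
      exact hsQ (hcQ' s hn)
    have hnn : ∃ k : ℤ, n * n = 1 + 3 * k := by
      have : n * n % 3 = 1 := by
        have h3 : n % 3 = 1 ∨ n % 3 = 2 := by omega
        rcases h3 with h3 | h3 <;> simp [Int.mul_emod, h3]
      exact ⟨n * n / 3, by omega⟩
    obtain ⟨k, hk⟩ := hnn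
    have hda : (QuotientGroup.mk (s := Q.subgroupOf P) (⟨(c * c) * s * (c * c)⁻¹, hccs⟩ : P)) =
        QuotientGroup.mk (⟨s, hs⟩ : P) := by
      rw [hd, ← hn, ← zpow_mul, hk, zpow_add, zpow_mul, zpow_one]
      have : a ^ (3 : ℤ) = 1 := by exact_mod_cast ha3
      rw [this, one_zpow, mul_one]
    rw [eq_comm, QuotientGroup.eq, Subgroup.mem_subgroupOf] at hda
    change s⁻¹ * ((c * c) * s * (c * c)⁻¹) ∈ Q at hda
    have h5 := hPQ s hs _ hda
    have h6 : s * (s⁻¹ * ((c * c) * s * (c * c)⁻¹)) * s⁻¹ = (c * c) * s * (c * c)⁻¹ * s⁻¹ := by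
      group
    rw [h6] at h5
    exact h5

theorem RC4 (hBA1 : BA1_stmt) : C4_stmt := by
  intro k G X _ _ _ _ _ _ g R x Q hQP hQn hcard
  obtain ⟨hP, hPmem, _, _, hPn, _, _, hh3, ⟨m, hm⟩, c, hcst, hoc, hoθ, _⟩ :=
    hBA1 k G X g R x
  have hqpos : 0 < Nat.card Q := Nat.card_pos
  -- `|Q|` is prime to `h`
  have hcopQ : Nat.Coprime (hh R x) (Nat.card Q) := by
    have h1 : Nat.card Q ∣ 3 ^ m := by
      have : Nat.card Q ∣ Nat.card (R.P x) := ⟨3, by rw [hcard]; ring⟩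
      have h2 : Nat.card (R.P x) = 3 ^ m := hm
      rwa [h2] at this
    have h3 : Nat.Coprime (hh R x) (3 ^ m) := by
      apply Nat.Coprime.pow_right
      rw [Nat.coprime_comm]
      exact (Nat.Prime.coprime_iff_not_dvd Nat.prime_three).mpr hh3
    exact Nat.Coprime.coprime_dvd_right h1 h3
  obtain ⟨j, hj1, hjsum, hjc⟩ := R.herbrand x Q hQP hQn hcard
  -- split the sum
  have hsplit : R.T x = (∑ s ∈ Finset.univ.filter (fun s : G => s ∈ R.P x ∧ s ∉ Q), R.i x s) +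
      ∑ s ∈ Finset.univ.filter (fun s : G => s ∈ Q ∧ s ≠ 1), R.i x s := by
    unfold Ram.T
    rw [← Finset.sum_union]
    · apply Finset.sum_congr _ (fun _ _ => rfl)
      ext s
      simp only [Finset.mem_filter, Finset.mem_univ, true_and, Finset.mem_union]
      constructor
      · rintro ⟨h1, h2⟩
        by_cases h3 : s ∈ Q
        · exact Or.inr ⟨h3, h2⟩
        · exact Or.inl ⟨h1, h3⟩
      · rintro (⟨h1, h2⟩ | ⟨h1, h2⟩)
        · exact ⟨h1, fun h => h2 (h ▸ Q.one_mem)⟩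
        · exact ⟨hQP h1, h2⟩
    · rw [Finset.disjoint_filter]
      rintro s _ ⟨_, h2⟩ ⟨h3, _⟩
      exact h2 h3
  have hQsum : Nat.card Q ≤
      (∑ s ∈ Finset.univ.filter (fun s : G => s ∈ Q ∧ s ≠ 1), R.i x s) + 1 := by
    have h1 : (Finset.univ.filter (fun s : G => s ∈ Q ∧ s ≠ 1)).card ≤
        ∑ s ∈ Finset.univ.filter (fun s : G => s ∈ Q ∧ s ≠ 1), R.i x s := by
      rw [Finset.card_eq_sum_ones]
      apply Finset.sum_le_sum
      intro s hs
      simp only [Finset.mem_filter, Finset.mem_univ, true_and] at hs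
      have := ((hPmem s).mp (hQP hs.1)).2
      rcases this with h | h
      · exact absurd h hs.2
      · exact h
    have h2 : (Finset.univ.filter (fun s : G => s ∈ Q ∧ s ≠ 1)).card + 1 = Nat.card Q := by
      have h3 : Finset.univ.filter (fun s : G => s ∈ Q ∧ s ≠ 1) =
          (Finset.univ.filter (fun s : G => s ∈ Q)).erase 1 := by
        ext s
        simp only [Finset.mem_filter, Finset.mem_univ, true_and, Finset.mem_erase]
        tauto
      have h4 : (Finset.univ.filter (fun s : G => s ∈ Q)).card = Nat.card Q := by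
        rw [Nat.card_eq_fintype_card, Fintype.card_subtype]
      have h5 : (1 : G) ∈ Finset.univ.filter (fun s : G => s ∈ Q) := by
        simp [Q.one_mem]
      rw [h3, Finset.card_erase_add_one h5, h4]
    omega
  have hT : Nat.card Q * (2 * j) + Nat.card Q ≤ R.T x + 1 := by
    rw [hsplit]
    have h1 : (∑ s ∈ Finset.univ.filter (fun s : G => s ∈ R.P x ∧ s ∉ Q), R.i x s) =
        2 * Nat.card Q * j := hjsum
    rw [h1]
    have h2 : 2 * Nat.card Q * j = Nat.card Q * (2 * j) := by ring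
    omega
  have hq : qq R x = 3 * Nat.card Q := hcard
  have hPst : ∀ p ∈ R.P x, p ∈ stabilizer G x := fun p hp => ((hPmem p).mp hp).1
  constructor
  · -- `c²` centralises `P / Q`
    have h1 : ∀ s ∈ R.P x, (c * c) * s * (c * c)⁻¹ * s⁻¹ ∈ Q := by
      apply RC4_sq (R.P x) Q hQP hcard (fun p hp s hs => hQn p (hPst p hp) s hs) c
      · intro s hs; exact hPn c s hcst hs
      · intro s hs; exact hQn c hcst s hs
      · intro s hs
        have h2 := hQn c⁻¹ (inv_mem hcst) _ hs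
        have h3 : c⁻¹ * (c * s * c⁻¹) * c⁻¹⁻¹ = s := by group
        rwa [h3] at h2
    have h2 : (R.θ x ((⟨c, hcst⟩ : stabilizer G x) * (⟨c, hcst⟩ : stabilizer G x))) ^
        (Nat.card Q * j) = 1 := by
      refine (hjc ((⟨c, hcst⟩ : stabilizer G x) * (⟨c, hcst⟩ : stabilizer G x))).mpr ?_
      intro s hs
      exact h1 s hs
    have h3 : (R.θ x ⟨c, hcst⟩) ^ (2 * (Nat.card Q * j)) = 1 := by
      rw [map_mul] at h2
      rw [pow_mul, pow_two]; exact h2
    have h4 : hh R x ∣ 2 * (Nat.card Q * j) := by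
      rw [← hoθ]; exact orderOf_dvd_of_pow_eq_one h3
    have h5 : hh R x ∣ 2 * j := by
      have : 2 * (Nat.card Q * j) = Nat.card Q * (2 * j) := by ring
      rw [this] at h4
      exact hcopQ.dvd_of_dvd_mul_left h4
    have h6 : hh R x ≤ 2 * j := Nat.le_of_dvd (by omega) h5
    have h7 : Nat.card Q * hh R x ≤ Nat.card Q * (2 * j) := Nat.mul_le_mul_left _ h6
    rw [hq]
    have h8 : 3 * Nat.card Q * hh R x = 3 * (Nat.card Q * hh R x) := by ring
    omega
  · intro hcent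
    have h2 : (R.θ x ⟨c, hcst⟩) ^ (Nat.card Q * j) = 1 :=
      (hjc ⟨c, hcst⟩).mpr (fun s hs => hcent c hcst s hs)
    have h4 : hh R x ∣ Nat.card Q * j := by
      rw [← hoθ]; exact orderOf_dvd_of_pow_eq_one h2
    have h5 : hh R x ∣ j := hcopQ.dvd_of_dvd_mul_left h4
    have h6 : hh R x ≤ j := Nat.le_of_dvd (by omega) h5
    have h7 : Nat.card Q * hh R x ≤ Nat.card Q * j := Nat.mul_le_mul_left _ h6
    rw [hq]
    have h8 : 2 * (3 * Nat.card Q * hh R x) = 6 * (Nat.card Q * hh R x) := by ring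
    have h9 : Nat.card Q * (2 * j) = 2 * (Nat.card Q * j) := by ring
    omega

end Pool.Agent.helper75.AU
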