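import Pool.Agent.helper53.AU.SpecG2

/-!
# Project au, module SN
-/

namespace Pool.Agent.helper53.AU

open scoped Classical

theorem SN (hTX : TX_stmt) (hSY : SY_stmt) : SN_stmt := by
  intro L Ω _ _ A hPL x hx h5
  have : Finite L := hPL.finL
  have hr : Fact (orderOf x).Prime := ⟨hx⟩
  by_contra hcon
  have hcent : ∀ g : L, g * x * g⁻¹ ∈ Subgroup.zpowers x → g * x = x * g := by
    intro g hg
    by_contra hne
    exact hcon ⟨g, hg, hne⟩
  have hp : IsPGroup (orderOf x) (Subgroup.zpowers x) := by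
    rw [IsPGroup.iff_card]
    exact ⟨1, by rw [Nat.card_zpowers, pow_one]⟩
  obtain ⟨S, hS⟩ := hp.exists_le_sylow
  have hxS : x ∈ (S : Subgroup L) := hS (Subgroup.mem_zpowers x)
  have hcyc : IsCyclic S := (hSY L Ω A hPL).1 (orderOf x) h5 hr S
  obtain ⟨N, hN, hidx⟩ := hTX L (orderOf x) S x hcyc hxS rfl hcent
  obtain ⟨n, hn⟩ := (IsPGroup.iff_card.mp S.isPGroup')
  have hne3 : orderOf x ≠ 3 := by omega
  have hNtop : N = ⊤ := hPL.noquot N hN (orderOf x) n hx hne3 (by rw [hidx]; exact hn)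
  have h1 : Nat.card S = 1 := by
    rw [← hidx, hNtop, Subgroup.index_top]
  have hbot : (S : Subgroup L) = ⊥ := Subgroup.card_eq_one.mp h1
  rw [hbot, Subgroup.mem_bot] at hxS
  rw [hxS, orderOf_one] at hx
  exact Nat.not_prime_one hx

end Pool.Agent.helper53.AU
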